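import Pool.Agent.Lib.MP_6dddb9_nt.Defs
import Pool.Agent.Lib.MP_6dddb9_nt.Kappa
import Pool.Agent.Lib.MP_6dddb9_nt.Main

set_option autoImplicit false

namespace Pool.Agent.Results.MP_6dddb9_nt.MCaliber

open Pool.Agent.Lib.MP_6dddb9_nt

/-- For primes `p < q`, both `1` modulo `4`, written as `p = x_p^2 + y_p^2` and
`q = x_q^2 + y_q^2` with `0 < x_p < y_p`, `0 < x_q < y_q` and `x_p`, `x_q` of different parity, the
number of m-reduced quadratic irrationals of discriminant `p q` is finite and congruent to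
`1 - (-1)^{x_p} (q/p)` modulo `4`. -/
theorem result (p q xp yp xq yq : ℕ) [Fact p.Prime] [Fact q.Prime] (hpq : p < q)
    (hp4 : p % 4 = 1) (hq4 : q % 4 = 1)
    (hxp : 0 < xp) (hxyp : xp < yp) (hp : p = xp ^ 2 + yp ^ 2)
    (hxq : 0 < xq) (hxyq : xq < yq) (hq : q = xq ^ 2 + yq ^ 2)
    (hpar : xp % 2 ≠ xq % 2) :
    (mReduced (p * q)).Finite ∧
      (kappaPlus (p * q) : ℤ) ≡ 1 - (-1) ^ xp * legendreSym p q [ZMOD 4] := by
  have hpp : p.Prime := Fact.out
  have hqq : q.Prime := Fact.out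
  -- parities
  have hpodd : (xp + yp) % 2 = 1 := by
    have h1 : (xp ^ 2 + yp ^ 2) % 2 = 1 := by rw [← hp]; omega
    have h2 : (xp ^ 2 + yp ^ 2) % 2 = (xp + yp) % 2 := by
      rcases Nat.mod_two_eq_zero_or_one xp with h | h <;>
      rcases Nat.mod_two_eq_zero_or_one yp with h' | h' <;>
      simp [Nat.add_mod, Nat.pow_mod, h, h']
    omega
  have hqodd : (xq + yq) % 2 = 1 := by
    have h1 : (xq ^ 2 + yq ^ 2) % 2 = 1 := by rw [← hq]; omega
    have h2 : (xq ^ 2 + yq ^ 2) % 2 = (xq + yq) % 2 := by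
      rcases Nat.mod_two_eq_zero_or_one xq with h | h <;>
      rcases Nat.mod_two_eq_zero_or_one yq with h' | h' <;>
      simp [Nat.add_mod, Nat.pow_mod, h, h']
    omega
  obtain ⟨u, hu⟩ : ∃ u : ℤ, (p : ℤ) = 4 * u + 1 := ⟨(p / 4 : ℕ), by omega⟩
  obtain ⟨v, hv⟩ : ∃ v : ℤ, (q : ℤ) = 4 * v + 1 := ⟨(q / 4 : ℕ), by omega⟩
  have huv : u < v := by omega
  have hpI : (xp : ℤ) ^ 2 + (yp : ℤ) ^ 2 = p := by rw [hp]; push_cast; rfl
  have hqI : (xq : ℤ) ^ 2 + (yq : ℤ) ^ 2 = q := by rw [hq]; push_cast; rfl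
  -- the general statement
  have key : ∀ (δ : Dat (4 * u * v + u + v)) (s : ℤ), δ.p = p → δ.q = q → (s = 1 ∨ s = -1) →
      0 < s * (δ.a * δ.d - δ.b * δ.c) → (-1 : ℤ) ^ xp = s →
      (mReduced (p * q)).Finite ∧
      (kappaPlus (p * q) : ℤ) ≡ 1 - (-1) ^ xp * legendreSym p q [ZMOD 4] := by
    intro δ s hδp hδq hs hsad hxs
    have hD : 4 * (4 * u * v + u + v) + 1 = (p : ℤ) * q := by rw [hu, hv]; ring
    obtain ⟨h1, h2⟩ := kappaPlus_eq δ.rt δ.nsq δ.squarefree
    rw [hD] at h1 h2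
    refine ⟨h1, ?_⟩
    have hfact : Fact δ.p.Prime := ⟨δ.hp⟩
    have h3 := δ.total s hs hsad
    rw [ZMod.intCast_eq_intCast_iff, ← h2] at h3
    rw [hxs]
    subst hδp
    subst hδq
    exact h3
  rcases Nat.mod_two_eq_zero_or_one xp with h | h
  · -- `x_p` even, `x_q` odd
    refine key
      { p := p, q := q, u := u, v := v, hp := hpp, hq := hqq, hpu := hu, hqv := hv, huv := huv,
        hk := rfl, a := yp, b := xp, c := xq, d := yq, ha := by omega, hb := by omega,
        hc := by omega, hd := by omega,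
        ha' := by rw [Int.odd_iff]; omega, hb' := by rw [Int.even_iff]; omega,
        hc' := by rw [Int.odd_iff]; omega, hd' := by rw [Int.even_iff]; omega,
        hab := by rw [← hpI]; ring, hcd := hqI } 1 rfl rfl (Or.inl rfl) ?_ ?_
    · simp only
      have h1 : (xp : ℤ) < yp := by exact_mod_cast hxyp
      have h2 : (xq : ℤ) < yq := by exact_mod_cast hxyq
      have h3 : (0 : ℤ) < xp := by exact_mod_cast hxp
      have h4 : (0 : ℤ) < xq := by exact_mod_cast hxq
      nlinarith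
    · exact Even.neg_one_pow (Nat.even_iff.2 h)
  · -- `x_p` odd, `x_q` even
    refine key
      { p := p, q := q, u := u, v := v, hp := hpp, hq := hqq, hpu := hu, hqv := hv, huv := huv,
        hk := rfl, a := xp, b := yp, c := yq, d := xq, ha := by omega, hb := by omega,
        hc := by omega, hd := by omega,
        ha' := by rw [Int.odd_iff]; omega, hb' := by rw [Int.even_iff]; omega,
        hc' := by rw [Int.odd_iff]; omega, hd' := by rw [Int.even_iff]; omega,
        hab := hpI, hcd := by rw [← hqI]; ring } (-1) rfl rfl (Or.inr rfl) ?_ ?_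
    · simp only
      have h1 : (xp : ℤ) < yp := by exact_mod_cast hxyp
      have h2 : (xq : ℤ) < yq := by exact_mod_cast hxyq
      have h3 : (0 : ℤ) < xp := by exact_mod_cast hxp
      have h4 : (0 : ℤ) < xq := by exact_mod_cast hxq
      nlinarith
    · exact Odd.neg_one_pow (Nat.odd_iff.2 h)

end Pool.Agent.Results.MP_6dddb9_nt.MCaliber
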